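import Mathlib

/-!
# Series with bounded integer digits in base 4

`V e = ∑ e j / 4 ^ (j + 1)` for bounded sequences of integers, the carry lemma, and the uniqueness
of expansions supported on sparse positions.
-/

namespace Pool.Agent.X215.Transl

open Filter Topology Set

/-- The value of a sequence of integer digits. -/
noncomputable def V (e : ℕ → ℤ) : ℝ := ∑' j, (e j : ℝ) / 4 ^ (j + 1)

theorem summable_geo (K : ℝ) : Summable fun j : ℕ => K / 4 ^ (j + 1) := by
  have h1 : Summable fun j : ℕ => (K / 4) * (1 / 4 : ℝ) ^ j :=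
    (summable_geometric_of_lt_one (by norm_num) (by norm_num)).mul_left _
  refine h1.congr fun j => ?_
  rw [pow_succ, one_div, inv_pow]
  field_simp

theorem tsum_geo (K : ℝ) : ∑' j : ℕ, K / 4 ^ (j + 1) = K / 3 := by
  have h1 : ∀ j : ℕ, K / 4 ^ (j + 1) = (K / 4) * (1 / 4 : ℝ) ^ j := by
    intro j
    rw [pow_succ, one_div, inv_pow]
    field_simp
  rw [tsum_congr h1, tsum_mul_left, tsum_geometric_of_lt_one (by norm_num) (by norm_num)]
  ring

theorem term_le {K : ℤ} {e : ℕ → ℤ} (h : ∀ j, |e j| ≤ K) (j : ℕ) :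
    ‖(e j : ℝ) / 4 ^ (j + 1)‖ ≤ (K : ℝ) / 4 ^ (j + 1) := by
  rw [norm_div, norm_pow, Real.norm_eq_abs, Real.norm_eq_abs, abs_of_pos (by norm_num : (0:ℝ) < 4)]
  have h1 : |(e j : ℝ)| ≤ K := by exact_mod_cast h j
  gcongr

theorem summable_V {K : ℤ} {e : ℕ → ℤ} (h : ∀ j, |e j| ≤ K) :
    Summable fun j => (e j : ℝ) / 4 ^ (j + 1) :=
  Summable.of_norm_bounded (summable_geo K) (term_le h)

theorem V_add {K K' : ℤ} {e e' : ℕ → ℤ} (h : ∀ j, |e j| ≤ K) (h' : ∀ j, |e' j| ≤ K') :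
    V (fun j => e j + e' j) = V e + V e' := by
  unfold V
  rw [← (summable_V h).tsum_add (summable_V h')]
  refine tsum_congr fun j => ?_
  push_cast
  ring

theorem V_sub {K K' : ℤ} {e e' : ℕ → ℤ} (h : ∀ j, |e j| ≤ K) (h' : ∀ j, |e' j| ≤ K') :
    V (fun j => e j - e' j) = V e - V e' := by
  unfold V
  rw [← (summable_V h).tsum_sub (summable_V h')]
  refine tsum_congr fun j => ?_
  push_cast
  ring

theorem abs_V_le {K : ℤ} {e : ℕ → ℤ} (h : ∀ j, |e j| ≤ K) : 3 * |V e| ≤ K := by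
  have h1 : ‖V e‖ ≤ ∑' j : ℕ, (K : ℝ) / 4 ^ (j + 1) :=
    tsum_of_norm_bounded (summable_geo K).hasSum (term_le h)
  rw [tsum_geo, Real.norm_eq_abs] at h1
  linarith

theorem V_succ {K : ℤ} {e : ℕ → ℤ} (h : ∀ j, |e j| ≤ K) :
    4 * V e = e 0 + V (fun j => e (j + 1)) := by
  unfold V
  rw [(summable_V h).tsum_eq_zero_add, mul_add, ← tsum_mul_left]
  congr 1
  · norm_num
    ring
  · refine tsum_congr fun j => ?_
    rw [pow_succ _ (j + 1)]
    field_simp

/-- The carry lemma. -/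
theorem carry {K : ℤ} {e : ℕ → ℤ} (h : ∀ j, |e j| ≤ K) {N : ℤ} (hN : V e = N) :
    ∃ T : ℕ → ℤ, (∀ k, 4 * T k = e k + T (k + 1)) ∧ ∀ k, 3 * |T k| ≤ K := by
  obtain ⟨T, hT0, hTS⟩ : ∃ T : ℕ → ℤ, T 0 = N ∧ ∀ k, T (k + 1) = 4 * T k - e k :=
    ⟨fun k => Nat.rec N (fun k t => 4 * t - e k) k, rfl, fun _ => rfl⟩
  have hT : ∀ k, V (fun j => e (j + k)) = (T k : ℝ) := by
    intro k
    induction k with
    | zero => rw [hT0]; exact hN
    | succ k ih =>
      have h1 := V_succ (e := fun j => e (j + k)) (K := K) fun j => h _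
      rw [ih] at h1
      have h2 : (fun j => e (j + 1 + k)) = fun j => e (j + (k + 1)) := by
        funext j
        congr 1
        omega
      have h3 : V (fun j => e (j + (k + 1))) = 4 * (T k : ℝ) - e k := by
        rw [← h2]
        simp only [zero_add] at h1
        linarith
      rw [h3, hTS]
      push_cast
      ring
  refine ⟨T, fun k => ?_, fun k => ?_⟩
  · rw [hTS]
    ring
  · have h1 := abs_V_le (e := fun j => e (j + k)) (K := K) fun j => h _
    rw [hT k] at h1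
    exact_mod_cast h1

/-- The value depends continuously on a parameter. -/
theorem continuous_V {X : Type*} [TopologicalSpace X] {E : X → ℕ → ℤ} {K : ℤ}
    (hE : ∀ j, Continuous fun x => E x j) (h : ∀ x j, |E x j| ≤ K) : Continuous fun x => V (E x) := by
  unfold V
  refine continuous_tsum (fun j => ?_) (summable_geo K) fun j x => term_le (h x) j
  exact (continuous_of_discreteTopology.comp (hE j) : Continuous fun x => ((E x j : ℤ) : ℝ)).div_const
    _

/-- Images of boxes are compact. -/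
theorem isCompact_box {P : ℕ → Set ℤ} {K : ℤ} (hP : ∀ j, ∀ v ∈ P j, |v| ≤ K) :
    IsCompact (V '' {e | ∀ j, e j ∈ P j}) := by
  have h1 : IsCompact {e : ℕ → ℤ | ∀ j, e j ∈ P j} := by
    have h2 : IsCompact (Set.univ.pi P) := isCompact_univ_pi fun j => by
      refine Set.Finite.isCompact ((Set.finite_Icc (-K) K).subset fun v hv => ?_)
      exact abs_le.1 (hP j v hv)
    have h3 : {e : ℕ → ℤ | ∀ j, e j ∈ P j} = Set.univ.pi P := by
      ext e
      simp
    rw [h3]
    exact h2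
  refine h1.image_of_continuousOn ?_
  rw [continuousOn_iff_continuous_domRestrict]
  exact continuous_V (E := fun e : {e : ℕ → ℤ | ∀ j, e j ∈ P j} => (e : ℕ → ℤ)) (K := K)
    (fun j => (continuous_apply j).comp continuous_subtype_val) fun x j => hP j _ (x.2 j)

/-- Base 4 digits. -/
theorem exists_digits (z : ℝ) : ∃ (N : ℤ) (d : ℕ → ℤ), (∀ j, 0 ≤ d j ∧ d j ≤ 3) ∧ z = N + V d := by
  have hfl : ∀ j : ℕ, (4 : ℝ) ^ j * z - ⌊(4 : ℝ) ^ j * z⌋ < 1 ∧ 0 ≤ (4 : ℝ) ^ j * z -
      ⌊(4 : ℝ) ^ j * z⌋ := fun j =>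
    ⟨by linarith [Int.lt_floor_add_one ((4 : ℝ) ^ j * z)], by
      linarith [Int.floor_le ((4 : ℝ) ^ j * z)]⟩
  let d : ℕ → ℤ := fun j => ⌊(4 : ℝ) ^ (j + 1) * z⌋ - 4 * ⌊(4 : ℝ) ^ j * z⌋
  have hd : ∀ j, 0 ≤ d j ∧ d j ≤ 3 := by
    intro j
    have h1 := hfl j
    have h2 := hfl (j + 1)
    have h3 : (4 : ℝ) ^ (j + 1) * z = 4 * ((4 : ℝ) ^ j * z) := by rw [pow_succ]; ring
    have h4 : (-1 : ℝ) < (d j : ℝ) := by
      show (-1 : ℝ) < ((⌊(4 : ℝ) ^ (j + 1) * z⌋ - 4 * ⌊(4 : ℝ) ^ j * z⌋ : ℤ) : ℝ)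
      push_cast
      linarith [h1.2, h2.1]
    have h5 : (d j : ℝ) < 4 := by
      show ((⌊(4 : ℝ) ^ (j + 1) * z⌋ - 4 * ⌊(4 : ℝ) ^ j * z⌋ : ℤ) : ℝ) < 4
      push_cast
      linarith [h1.1, h2.2]
    have h6 : -1 < d j := by exact_mod_cast h4
    have h7 : d j < 4 := by exact_mod_cast h5
    omega
  refine ⟨⌊z⌋, d, hd, ?_⟩
  have hb : ∀ j, |d j| ≤ 3 := fun j => abs_le.2 ⟨by linarith [(hd j).1], (hd j).2⟩
  have h1 : ∀ n, ∑ j ∈ Finset.range n, (d j : ℝ) / 4 ^ (j + 1) =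
      (⌊(4 : ℝ) ^ n * z⌋ : ℝ) / 4 ^ n - ⌊z⌋ := by
    intro n
    induction n with
    | zero => simp
    | succ n ih =>
      rw [Finset.sum_range_succ, ih]
      show _ + ((⌊(4 : ℝ) ^ (n + 1) * z⌋ - 4 * ⌊(4 : ℝ) ^ n * z⌋ : ℤ) : ℝ) / 4 ^ (n + 1) = _
      push_cast
      rw [pow_succ]
      field_simp
      ring
  have h2 : Tendsto (fun n => ∑ j ∈ Finset.range n, (d j : ℝ) / 4 ^ (j + 1)) atTop
      (𝓝 (V d)) := (summable_V hb).hasSum.tendsto_sum_nat
  have h3 : Tendsto (fun n => ∑ j ∈ Finset.range n, (d j : ℝ) / 4 ^ (j + 1)) atTop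
      (𝓝 (z - ⌊z⌋)) := by
    simp only [h1]
    refine Tendsto.sub_const ?_ _
    have h4 : ∀ n : ℕ, z - (1 / 4 : ℝ) ^ n ≤ (⌊(4 : ℝ) ^ n * z⌋ : ℝ) / 4 ^ n ∧
        (⌊(4 : ℝ) ^ n * z⌋ : ℝ) / 4 ^ n ≤ z := by
      intro n
      have h5 := hfl n
      have h6 : (0 : ℝ) < 4 ^ n := by positivity
      constructor
      · rw [le_div_iff₀ h6, sub_mul, ← mul_pow]
        norm_num
        linarith [h5.1]
      · rw [div_le_iff₀ h6]
        linarith [h5.2]
    refine tendsto_of_tendsto_of_tendsto_of_le_of_le ?_ tendsto_const_nhds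
      (fun n => (h4 n).1) fun n => (h4 n).2
    have h7 : Tendsto (fun n : ℕ => (1 / 4 : ℝ) ^ n) atTop (𝓝 0) :=
      tendsto_pow_atTop_nhds_zero_of_lt_one (by norm_num) (by norm_num)
    have h8 := (tendsto_const_nhds (x := z)).sub h7
    rwa [sub_zero] at h8
  have h4 := tendsto_nhds_unique h2 h3
  rw [h4]
  ring

/-! ### The special positions -/

/-- Positions of the first kind. -/
def s (n : ℕ) : ℕ := (2 * n + 2) ^ 2

/-- Positions of the second kind. -/
def q (n : ℕ) : ℕ := (2 * n + 2) ^ 2 + 1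

/-- Positions of the third kind. -/
def m (n : ℕ) : ℕ := (2 * n + 1) ^ 2

theorem sq_succ (a : ℕ) : (a + 1) ^ 2 = a ^ 2 + 2 * a + 1 := by ring

theorem sqrt_s (n : ℕ) : Nat.sqrt (s n) = 2 * n + 2 := by
  symm
  rw [Nat.eq_sqrt', sq_succ (2 * n + 2)]
  unfold s
  constructor <;> linarith

theorem sqrt_q (n : ℕ) : Nat.sqrt (q n) = 2 * n + 2 := by
  symm
  rw [Nat.eq_sqrt', sq_succ (2 * n + 2)]
  unfold q
  constructor <;> linarith

theorem sqrt_m (n : ℕ) : Nat.sqrt (m n) = 2 * n + 1 := by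
  symm
  rw [Nat.eq_sqrt', sq_succ (2 * n + 1)]
  unfold m
  constructor <;> linarith

theorem s_inj : Function.Injective s := fun a b h => by
  have := congrArg Nat.sqrt h
  rw [sqrt_s, sqrt_s] at this
  omega

theorem q_inj : Function.Injective q := fun a b h => by
  have := congrArg Nat.sqrt h
  rw [sqrt_q, sqrt_q] at this
  omega

theorem m_inj : Function.Injective m := fun a b h => by
  have := congrArg Nat.sqrt h
  rw [sqrt_m, sqrt_m] at this
  omega

theorem s_ne_q (a b : ℕ) : s a ≠ q b := fun h => by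
  have := congrArg Nat.sqrt h
  rw [sqrt_s, sqrt_q] at this
  have h2 : a = b := by omega
  subst h2
  unfold s q at h
  omega

theorem s_ne_m (a b : ℕ) : s a ≠ m b := fun h => by
  have := congrArg Nat.sqrt h
  rw [sqrt_s, sqrt_m] at this
  omega

theorem q_ne_m (a b : ℕ) : q a ≠ m b := fun h => by
  have := congrArg Nat.sqrt h
  rw [sqrt_q, sqrt_m] at this
  omega

/-- `e` vanishes outside the special positions. -/
def Sp (e : ℕ → ℤ) : Prop := ∀ j, (∀ n, s n ≠ j) → (∀ n, q n ≠ j) → (∀ n, m n ≠ j) → e j = 0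

theorem gap {e T : ℕ → ℤ} (hT : ∀ k, 4 * T k = e k + T (k + 1)) {a : ℕ} :
    ∀ L : ℕ, (∀ j, a ≤ j → j < a + L → e j = 0) → T (a + L) = 4 ^ L * T a := by
  intro L
  induction L with
  | zero => intro _; simp
  | succ L ih =>
    intro h
    have h1 := ih fun j h1 h2 => h j h1 (by omega)
    have h2 := hT (a + L)
    rw [h (a + L) (by omega) (by omega), zero_add] at h2
    rw [← add_assoc, ← h2, h1, pow_succ]
    ring

theorem zero_of_gap {T : ℤ} {K : ℤ} {L : ℕ} (h : |4 ^ L * T| ≤ K) (hL : K < 4 ^ L) : T = 0 := by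
  by_contra hne
  have h1 : 1 ≤ |T| := Int.one_le_abs hne
  rw [abs_mul, abs_of_pos (by positivity : (0 : ℤ) < 4 ^ L)] at h
  have h2 : (0 : ℤ) < 4 ^ L := by positivity
  nlinarith

/-- Uniqueness of expansions supported on the special positions. -/
theorem unique {K : ℤ} {e : ℕ → ℤ} (h : ∀ j, |e j| ≤ K) (hS : Sp e) {N : ℤ} (hN : V e = N) :
    ∃ n₀, ∀ n, n₀ ≤ n → e (m n) = 0 ∧ e (q n) = -4 * e (s n) := by
  obtain ⟨T, hT, hTb⟩ := carry h hN
  obtain ⟨n₀, hn₀⟩ : ∃ n₀ : ℕ, K < 4 ^ n₀ := by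
    obtain ⟨n₀, hn₀⟩ := exists_nat_gt (K : ℝ)
    refine ⟨n₀, ?_⟩
    have h1 : (n₀ : ℤ) < 4 ^ n₀ := by exact_mod_cast Nat.lt_pow_self (by norm_num)
    have h2 : K < n₀ := by exact_mod_cast hn₀
    linarith
  have hbd : ∀ k, |T k| ≤ K := fun k => by
    have h1 := hTb k
    have h2 := abs_nonneg (T k)
    linarith
  have hpow : ∀ {L n : ℕ}, n₀ ≤ n → n ≤ L → K < 4 ^ L := by
    intro L n h1 h2
    exact hn₀.trans_le (pow_le_pow_right₀ (by norm_num) (h1.trans h2))
  -- the gap before `s n`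
  have g1 : ∀ n, n₀ ≤ n → T (m n + 1) = 0 ∧ T (s n) = 0 := by
    intro n hn
    have e1 : m n + 1 + (4 * n + 2) = s n := by unfold m s; ring
    have h1 := gap hT (a := m n + 1) (4 * n + 2) (fun j h1 h2 => by
      rw [e1] at h2
      have hj : Nat.sqrt j = 2 * n + 1 := by
        symm
        rw [Nat.eq_sqrt']
        unfold m at h1
        unfold s at h2
        constructor <;> nlinarith
      refine hS j (fun k hk => ?_) (fun k hk => ?_) fun k hk => ?_
      · rw [← hk, sqrt_s] at hj; omega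
      · rw [← hk, sqrt_q] at hj; omega
      · have h3 : k = n := by rw [← hk, sqrt_m] at hj; omega
        subst h3
        omega)
    rw [e1] at h1
    have h2 : T (m n + 1) = 0 := by
      refine zero_of_gap (K := K) (L := 4 * n + 2) ?_ (hpow hn (by omega))
      rw [← h1]
      exact hbd _
    exact ⟨h2, by rw [h1, h2, mul_zero]⟩
  have g2 : ∀ n, n₀ ≤ n → T (q n + 1) = 0 ∧ T (m (n + 1)) = 0 := by
    intro n hn
    have e1 : q n + 1 + (4 * n + 3) = m (n + 1) := by unfold m q; ring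
    have h1 := gap hT (a := q n + 1) (4 * n + 3) (fun j h1 h2 => by
      rw [e1] at h2
      have hj : Nat.sqrt j = 2 * n + 2 := by
        symm
        rw [Nat.eq_sqrt']
        unfold q at h1
        unfold m at h2
        constructor <;> nlinarith
      refine hS j (fun k hk => ?_) (fun k hk => ?_) fun k hk => ?_
      · have h3 : k = n := by rw [← hk, sqrt_s] at hj; omega
        subst h3
        unfold q at h1
        unfold s at hk
        omega
      · have h3 : k = n := by rw [← hk, sqrt_q] at hj; omega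
        subst h3
        omega
      · rw [← hk, sqrt_m] at hj; omega)
    rw [e1] at h1
    have h2 : T (q n + 1) = 0 := by
      refine zero_of_gap (K := K) (L := 4 * n + 3) ?_ (hpow hn (by omega))
      rw [← h1]
      exact hbd _
    exact ⟨h2, by rw [h1, h2, mul_zero]⟩
  refine ⟨n₀ + 1, fun n hn => ⟨?_, ?_⟩⟩
  · obtain ⟨k, rfl⟩ : ∃ k, n = k + 1 := ⟨n - 1, by omega⟩
    have h1 := hT (m (k + 1))
    rw [(g2 k (by omega)).2, (g1 (k + 1) (by omega)).1] at h1
    omega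
  · have h1 := hT (s n)
    have h2 := hT (q n)
    have e1 : s n + 1 = q n := rfl
    rw [(g1 n (by omega)).2, e1] at h1
    rw [(g2 n (by omega)).1] at h2
    omega

end Pool.Agent.X215.Transl
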