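import Mathlib
import Pool.Agent.X215.Transl.Digits

/-!
# Coding the column relation by real numbers
-/

namespace Pool.Agent.X215.Transl

open Filter Topology Set Cardinal

/-- The Cantor space of parameters. -/
abbrev K : Type := ℕ → Bool

/-- Initial segments. -/
def br (x : K) (n : ℕ) : List Bool := List.ofFn fun i : Fin n => x i

theorem length_br (x : K) (n : ℕ) : (br x n).length = n := List.length_ofFn

theorem br_eq {x y : K} {n : ℕ} (h : br x n = br y n) {i : ℕ} (hi : i < n) : x i = y i :=
  congrFun (List.ofFn_injective h) ⟨i, hi⟩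

/-- A numbering of the finite sequences. -/
noncomputable def cd : List Bool ≃ ℕ := Classical.choice nonempty_equiv_of_countable

/-- The characteristic function of the set of initial segments. -/
noncomputable def φ (x : K) (n : ℕ) : ℤ := if br x (cd.symm n).length = cd.symm n then 1 else 0

theorem φ_cases (x : K) (n : ℕ) : φ x n = 0 ∨ φ x n = 1 := by
  unfold φ
  split_ifs
  · exact Or.inr rfl
  · exact Or.inl rfl

theorem φ_br (x y : K) (n : ℕ) : φ x (cd (br y n)) = if br x n = br y n then 1 else 0 := by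
  unfold φ
  rw [Equiv.symm_apply_apply, length_br]

theorem continuous_φ (n : ℕ) : Continuous fun x => φ x n := by
  have h1 : Continuous fun x : K => fun i : Fin (cd.symm n).length => x i :=
    continuous_pi fun i => continuous_apply _
  have h2 : Continuous fun z : Fin (cd.symm n).length → Bool =>
      (if List.ofFn z = cd.symm n then 1 else 0 : ℤ) := continuous_of_discreteTopology
  exact h2.comp h1

/-- Kronecker delta -/
noncomputable def dl (t p : K) : ℤ := open Classical in if t = p then 1 else 0

theorem dl_self (t : K) : dl t t = 1 := if_pos rfl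

theorem dl_ne {t p : K} (h : t ≠ p) : dl t p = 0 := if_neg h

theorem dl_nonneg (t p : K) : 0 ≤ dl t p := by
  unfold dl
  split_ifs <;> norm_num

theorem ev (t p : K) : ∀ᶠ n in atTop, φ p (cd (br t n)) = dl t p := by
  by_cases h : t = p
  · subst h
    refine Eventually.of_forall fun n => ?_
    rw [φ_br, if_pos rfl, dl_self]
  · obtain ⟨i, hi⟩ := Function.ne_iff.1 h
    filter_upwards [eventually_gt_atTop i] with n hn
    rw [φ_br, dl_ne h, if_neg]
    intro h1
    exact hi (br_eq h1 hn).symm

theorem tendsto_cd (t : K) : Tendsto (fun n => cd (br t n)) atTop atTop := by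
  have h1 : Function.Injective fun n => cd (br t n) := by
    intro a b h
    have h2 := congrArg List.length (cd.injective h)
    rwa [length_br, length_br] at h2
  have h2 := h1.tendsto_cofinite
  rwa [Nat.cofinite_eq_atTop] at h2

theorem six {a b c p r u : K}
    (h : ∀ᶠ n in atTop, φ a n + φ b n + φ c n = φ p n + φ r n + φ u n) (t : K) :
    dl t a + dl t b + dl t c = dl t p + dl t r + dl t u := by
  obtain ⟨n, h1, h2, h3, h4, h5, h6, h7⟩ := ((ev t a).and ((ev t b).and ((ev t c).and
    ((ev t p).and ((ev t r).and ((ev t u).and ((tendsto_cd t).eventually h))))))).exists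
  rw [← h1, ← h2, ← h3, ← h4, ← h5, ← h6]
  exact h7

theorem two {a b : K} (h : ∀ᶠ n in atTop, φ a n = φ b n) : a = b := by
  by_contra hne
  obtain ⟨n, h1, h2, h3⟩ := ((ev a a).and ((ev a b).and ((tendsto_cd a).eventually h))).exists
  rw [h1, h2, dl_self, dl_ne hne] at h3
  exact one_ne_zero h3

/-- If `φ x - φ y - φ x' + φ y' = φ u - φ v` almost everywhere then `x = x'` or `y = y'`. -/
theorem share {x y x' y' u v : K} (hxy : x ≠ y) (hxy' : x' ≠ y') (huv : u ≠ v)
    (h : ∀ᶠ n in atTop, φ x n - φ y n - (φ x' n - φ y' n) = φ u n - φ v n) : x = x' ∨ y = y' := by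
  have h0 : ∀ᶠ n in atTop, φ x n + φ y' n + φ v n = φ y n + φ x' n + φ u n :=
    h.mono fun n hn => by linarith
  by_contra hcon
  push Not at hcon
  have h1 := six h0 x
  have h2 := six h0 y
  have h3 := six h0 x'
  have h4 := six h0 y'
  have h5 := six h0 u
  have n1 := dl_nonneg x y'
  have n2 := dl_nonneg x v
  rw [dl_self, dl_ne hxy, dl_ne hcon.1] at h1
  have hxu : x = u := by
    by_contra hne
    rw [dl_ne hne] at h1
    linarith
  subst hxu
  rw [dl_self, dl_ne hxy.symm, dl_ne hcon.2] at h2
  have n3 := dl_nonneg y x'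
  have hyv : y = v := by
    by_contra hne
    rw [dl_ne hne] at h2
    linarith
  subst hyv
  -- now `φ y' = φ x'` almost everywhere
  refine hxy' (two (h0.mono fun n hn => ?_))
  linarith

/-- If `φ y' - φ y = φ u - φ v` almost everywhere and `y ≠ y'`, then `y' = u` and `y = v`. -/
theorem pair_eq {y y' u v : K} (hne : y' ≠ y)
    (h : ∀ᶠ n in atTop, φ y' n - φ y n = φ u n - φ v n) : y' = u ∧ y = v := by
  have h0 : ∀ᶠ n in atTop, φ y' n + φ v n + φ v n = φ y n + φ u n + φ v n :=
    h.mono fun n hn => by linarith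
  have h1 := six h0 y'
  have h2 := six h0 y
  rw [dl_self, dl_ne hne] at h1
  rw [dl_self, dl_ne hne.symm] at h2
  have n1 := dl_nonneg y' v
  have n2 := dl_nonneg y u
  constructor
  · by_contra hne'
    rw [dl_ne hne'] at h1
    linarith
  · by_contra hne'
    rw [dl_ne hne'] at h2
    linarith

/-! ### The relation -/

/-- the `n`-th column -/
def col (n : ℕ) (y : K) : K := fun k => y (Nat.pair n k)

theorem continuous_col (n : ℕ) : Continuous (col n) := continuous_pi fun _ => continuous_apply _

/-- one of the two elements is a column of the other one -/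
def R (x y : K) : Prop := (∃ n, x = col n y) ∨ ∃ n, y = col n x

theorem R_symm {x y : K} (h : R x y) : R y x := h.symm

theorem exists_clique : ∃ H : Set K, ¬ H.Countable ∧ H.Pairwise R := by
  obtain ⟨H, hH⟩ := zorn_subset {H : Set K | H.Pairwise R} (by
    intro c hc hchain
    refine ⟨⋃₀ c, ?_, fun s hs => subset_sUnion_of_mem hs⟩
    exact (Set.pairwise_sUnion hchain.directedOn).2 fun s hs => hc hs)
  refine ⟨H, fun hcount => ?_, hH.prop⟩
  have hex : ∃ e : ℕ → K, H ⊆ range e := by
    rcases H.eq_empty_or_nonempty with h | h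
    · exact ⟨fun _ _ => false, by rw [h]; exact empty_subset _⟩
    · obtain ⟨e, he⟩ := hcount.exists_eq_range h
      exact ⟨e, he.subset⟩
  obtain ⟨e, he⟩ := hex
  let y : K := fun m => if (Nat.unpair m).1 % 2 = 0 then e ((Nat.unpair m).1 / 2) (Nat.unpair m).2
    else ! e ((Nat.unpair m).1 / 2) m
  have hcol : ∀ n, e n = col (2 * n) y := by
    intro n
    funext k
    show e n k = if (Nat.unpair (Nat.pair (2 * n) k)).1 % 2 = 0 then _ else _
    rw [Nat.unpair_pair]
    simp
  have hy : y ∉ H := by
    intro hyH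
    obtain ⟨n, hn⟩ := he hyH
    have h1 := congrFun hn (Nat.pair (2 * n + 1) 0)
    have h2 : y (Nat.pair (2 * n + 1) 0) = ! e n (Nat.pair (2 * n + 1) 0) := by
      show (if (Nat.unpair (Nat.pair (2 * n + 1) 0)).1 % 2 = 0 then _ else _) = _
      rw [Nat.unpair_pair]
      have h3 : (2 * n + 1) / 2 = n := by omega
      simp [h3]
    rw [h2] at h1
    revert h1
    cases e n (Nat.pair (2 * n + 1) 0) <;> simp
  have hins : (insert y H).Pairwise R := by
    refine (hH.prop).insert fun x hx _ => ?_
    obtain ⟨n, rfl⟩ := he hx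
    exact ⟨Or.inr ⟨2 * n, hcol n⟩, Or.inl ⟨2 * n, hcol n⟩⟩
  exact hy (hH.le_of_ge hins (subset_insert y H) (mem_insert y H))

/-- Cliques have size at most `ℵ₁`. -/
theorem clique_le {H : Set K} (hH : H.Pairwise R) : #H ≤ ℵ₁ := by
  by_contra hcon
  push Not at hcon
  obtain ⟨S, hSH, hS⟩ := Cardinal.le_mk_iff_exists_subset.1 hcon.le
  let C : Set K := S ∪ ⋃ y ∈ S, range fun n => col n y
  have hC : #C ≤ ℵ₁ := by
    refine (mk_union_le _ _).trans ?_
    have h1 : #(⋃ y ∈ S, range fun n => col n y : Set K) ≤ ℵ₁ := by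
      have h2 : (⋃ y ∈ S, range fun n => col n y : Set K) =
          ⋃ y : S, range fun n => col n (y : K) := by
        rw [biUnion_eq_iUnion]
      rw [h2]
      refine (mk_iUnion_le _).trans ?_
      refine (mul_le_max _ _).trans ?_
      refine max_le (max_le hS.le (ciSup_le' fun y => ?_)) (aleph0_le_aleph 1)
      exact (mk_le_aleph0_iff.2 (countable_range _).to_subtype).trans (aleph0_le_aleph 1)
    refine (add_le_add hS.le h1).trans ?_
    rw [add_eq_self (aleph0_le_aleph 1)]
  have hex : ∃ z ∈ H, z ∉ C := by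
    by_contra h
    push Not at h
    exact absurd ((mk_le_mk_of_subset (show H ⊆ C from h)).trans hC) (not_le.2 hcon)
  obtain ⟨z, hzH, hzC⟩ := hex
  have hsub : S ⊆ range fun n => col n z := by
    intro y hy
    have hyz : y ≠ z := fun h => hzC (Or.inl (h ▸ hy))
    rcases hH (hSH hy) hzH hyz with ⟨n, hn⟩ | ⟨n, hn⟩
    · exact ⟨n, hn.symm⟩
    · have h1 : z ∈ C := Or.inr (mem_iUnion₂.2 ⟨y, hy, n, hn.symm⟩)
      exact absurd h1 hzC
  have h1 : #S ≤ ℵ₀ := mk_le_aleph0_iff.2 ((countable_range _).mono hsub).to_subtype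
  rw [hS] at h1
  exact absurd h1 (not_le.2 (by
    rw [← succ_aleph0]
    exact Order.lt_succ _))

end Pool.Agent.X215.Transl
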